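import Pool.Agent.H31.XCE.Targets

/-!
MP_c59857_nt, N4, module K1: two cell functions, all phases, all shifts.
-/

set_option autoImplicit false

namespace Pool.Agent.H10.XCE

open Finset Pool.Agent.H31.XCE

theorem ll0 (Q : Finset ℕ) : 0 ≤ LL Q := sum_nonneg fun p _ => by positivity

/-- rounding the phases -/
theorem rnd (hN : T_NET) {ε : ℝ} {Q : Finset ℕ} {S M n K : ℕ} {v : ℕ → ℂ}
    (hv : ∀ p, ‖v p‖ ≤ 1) (hQ : ∀ p ∈ Q, p.Prime ∧ p ≤ M) (hK1 : 1 ≤ K)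
    (hK : 100 * M / ε ≤ K) (hε : 0 < ε) {a b : ℤ} {α β : ℝ} {F G : ℤ → ℂ} (hF : Bd F)
    (hG : Bd G) (h : ε * M * LL Q < ‖B1 Q S M n v a b α β F G‖) :
    ∃ k < K, ∃ l < K,
      ε / 2 * M * LL Q < ‖B1 Q S M n v a b ((k : ℝ) / K) ((l : ℝ) / K) F G‖ := by
  obtain ⟨h1, h2, h3, h4, h5, h6⟩ := hN
  obtain ⟨k, hk, z, hz⟩ := h4 α K hK1
  obtain ⟨l, hl, z', hz'⟩ := h4 β K hK1
  refine ⟨k, hk, l, hl, ?_⟩
  obtain ⟨α', hα'⟩ : ∃ x : ℝ, x = (k : ℝ) / K := ⟨_, rfl⟩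
  obtain ⟨β', hβ'⟩ : ∃ x : ℝ, x = (l : ℝ) / K := ⟨_, rfl⟩
  rw [← hα'] at hz ⊢
  rw [← hβ'] at hz' ⊢
  obtain ⟨δ, hδ⟩ : ∃ x : ℝ, x = α - z - α' := ⟨_, rfl⟩
  obtain ⟨δ', hδ'⟩ : ∃ x : ℝ, x = β - z' - β' := ⟨_, rfl⟩
  rw [← hδ] at hz
  rw [← hδ'] at hz'
  have hKp : (0 : ℝ) < K := by exact_mod_cast hK1
  have hterm : ∀ x p : ℕ, e (α * x + β * p) =
      e (δ * n) * (e (α' * x + β' * p) * e (δ * ((x : ℝ) - n) + δ' * p)) := by
    intro x p
    have h7 : α * x + β * p = ((z * x + z' * p : ℤ) : ℝ) +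
        (δ * n + ((α' * x + β' * p) + (δ * ((x : ℝ) - n) + δ' * p))) := by
      rw [hδ, hδ']
      push_cast
      ring
    rw [h7, h3, h5, one_mul, h3, h3]
  obtain ⟨T, hT⟩ : ∃ T : ℂ, T = ∑ x ∈ Ico n (n + M), ∑ p ∈ Q, v p * ((cd p x : ℝ) : ℂ) *
      (e (α' * x + β' * p) * e (δ * ((x : ℝ) - n) + δ' * p)) *
        F (((x : ℤ) + b * p) / (S : ℤ)) * G (((x : ℤ) + a * p) / (S : ℤ)) := ⟨_, rfl⟩
  have hB : B1 Q S M n v a b α β F G = e (δ * n) * T := by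
    rw [B1, hT, mul_sum]
    refine sum_congr rfl fun x _ => ?_
    rw [mul_sum]
    refine sum_congr rfl fun p _ => ?_
    rw [hterm]
    ring
  have hnB : ‖B1 Q S M n v a b α β F G‖ = ‖T‖ := by rw [hB, norm_mul, h2, one_mul]
  have hdiff : ‖T - B1 Q S M n v a b α' β' F G‖ ≤
      ∑ x ∈ Ico n (n + M), ∑ p ∈ Q, 2 * Real.pi * (2 * M / K) * |cd p x| := by
    rw [hT, B1, ← sum_sub_distrib]
    refine (norm_sum_le _ _).trans (sum_le_sum fun x hx => ?_)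
    rw [← sum_sub_distrib]
    refine (norm_sum_le _ _).trans (sum_le_sum fun p hp => ?_)
    have e1 : v p * ((cd p x : ℝ) : ℂ) *
        (e (α' * x + β' * p) * e (δ * ((x : ℝ) - n) + δ' * p)) *
        F (((x : ℤ) + b * p) / (S : ℤ)) * G (((x : ℤ) + a * p) / (S : ℤ)) -
        v p * ((cd p x : ℝ) : ℂ) * e (α' * x + β' * p) *
        F (((x : ℤ) + b * p) / (S : ℤ)) * G (((x : ℤ) + a * p) / (S : ℤ)) =
        (e (δ * ((x : ℝ) - n) + δ' * p) - 1) * (((cd p x : ℝ) : ℂ) * (v p *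
          (e (α' * x + β' * p) *
          (F (((x : ℤ) + b * p) / (S : ℤ)) * G (((x : ℤ) + a * p) / (S : ℤ)))))) := by ring
    rw [e1, norm_mul, norm_mul, norm_mul, norm_mul, norm_mul, h2, Complex.norm_real,
      Real.norm_eq_abs]
    have e2 : ‖e (δ * ((x : ℝ) - n) + δ' * p) - 1‖ ≤ 2 * Real.pi * (2 * M / K) := by
      have h8 := h1 (δ * ((x : ℝ) - n) + δ' * p) ((0 : ℤ) : ℝ)
      rw [h5, Int.cast_zero, sub_zero] at h8
      refine h8.trans (mul_le_mul_of_nonneg_left ?_ (by positivity))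
      rw [mem_Ico] at hx
      have hx1 : (n : ℝ) ≤ x := by exact_mod_cast hx.1
      have hx2 : (x : ℝ) ≤ n + M := by exact_mod_cast hx.2.le
      have hp1 : (p : ℝ) ≤ M := by exact_mod_cast (hQ p hp).2
      have hp0 : (0 : ℝ) ≤ p := Nat.cast_nonneg _
      calc |δ * ((x : ℝ) - n) + δ' * p| ≤ |δ * ((x : ℝ) - n)| + |δ' * p| := abs_add_le _ _
        _ = |δ| * ((x : ℝ) - n) + |δ'| * p := by
            rw [abs_mul, abs_mul, abs_of_nonneg (by linarith : (0 : ℝ) ≤ (x : ℝ) - n),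
              abs_of_nonneg hp0]
        _ ≤ 1 / K * M + 1 / K * M := by
            apply add_le_add
            · exact mul_le_mul hz (by linarith) (by linarith) (by positivity)
            · exact mul_le_mul hz' hp1 hp0 (by positivity)
        _ = 2 * M / K := by ring
    have e3 : ‖v p‖ * (1 * (‖F (((x : ℤ) + b * p) / (S : ℤ))‖ *
        ‖G (((x : ℤ) + a * p) / (S : ℤ))‖)) ≤ 1 := by
      have h8 := hv p
      have h9 := hF (((x : ℤ) + b * p) / (S : ℤ))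
      have h10 := hG (((x : ℤ) + a * p) / (S : ℤ))
      rw [one_mul]
      exact mul_le_one₀ h8 (by positivity) (mul_le_one₀ h9 (by positivity) h10)
    refine mul_le_mul e2 ?_ (by positivity) (by positivity)
    calc |cd p x| * _ ≤ |cd p x| * 1 := mul_le_mul_of_nonneg_left e3 (abs_nonneg _)
      _ = _ := mul_one _
  have hsum : ∑ x ∈ Ico n (n + M), ∑ p ∈ Q, 2 * Real.pi * (2 * M / K) * |cd p x| ≤
      ε / 2 * M * LL Q := by
    have h8 := h6 Q M n hQ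
    have h9 : ∑ x ∈ Ico n (n + M), ∑ p ∈ Q, 2 * Real.pi * (2 * M / K) * |cd p x| =
        2 * Real.pi * (2 * M / K) * ∑ x ∈ Ico n (n + M), ∑ p ∈ Q, |cd p x| := by
      rw [mul_sum]
      refine sum_congr rfl fun x _ => ?_
      rw [mul_sum]
    rw [h9]
    have h10 : 2 * Real.pi * (2 * M / K) ≤ ε * (Real.pi / 25) := by
      have h11 : (M : ℝ) / K ≤ ε / 100 := by
        rw [div_le_iff₀ hKp]
        rw [div_le_iff₀ hε] at hK
        linarith
      have h12 : 2 * Real.pi * (2 * M / K) = 4 * Real.pi * (M / K) := by ring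
      rw [h12]
      have := mul_le_mul_of_nonneg_left h11 (by positivity : 0 ≤ 4 * Real.pi)
      linarith
    have h13 : Real.pi ≤ 4 := Real.pi_le_four
    have h14 : 0 ≤ (M : ℝ) * LL Q := mul_nonneg (Nat.cast_nonneg _) (ll0 Q)
    calc 2 * Real.pi * (2 * M / K) * ∑ x ∈ Ico n (n + M), ∑ p ∈ Q, |cd p x| ≤
        ε * (Real.pi / 25) * (3 * M * LL Q) := by
          refine mul_le_mul h10 h8 ?_ (by positivity)
          exact sum_nonneg fun x _ => sum_nonneg fun p _ => abs_nonneg _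
      _ = (3 * Real.pi / 25) * (ε * (M * LL Q)) := by ring
      _ ≤ 1 / 2 * (ε * (M * LL Q)) := by
          apply mul_le_mul_of_nonneg_right (by linarith) (by positivity)
      _ = _ := by ring
  have h15 : ‖T‖ ≤ ‖T - B1 Q S M n v a b α' β' F G‖ + ‖B1 Q S M n v a b α' β' F G‖ := by
    have := norm_add_le (T - B1 Q S M n v a b α' β' F G) (B1 Q S M n v a b α' β' F G)
    rwa [sub_add_cancel] at this
  rw [hnB] at h
  have h16 := hdiff.trans hsum
  have h17 : ε * M * LL Q = ε / 2 * M * LL Q + ε / 2 * M * LL Q := by ring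
  linarith

theorem pf_K1 (hB : T_BLK) (hN : T_NET) : T_K1 := by
  classical
  intro ε D J hε
  obtain ⟨C, hC1, hC⟩ := hB (ε / 2) (3 * D + 4) J (by positivity)
  refine ⟨max C (max (100 / ε + 2) ((2 * J + 1) ^ 2)), le_max_of_le_left hC1, ?_⟩
  intro S M L P Y Q v H hv
  have hCP : C ≤ P := (le_max_left _ _).trans H.hP
  have hP2 : 100 / ε + 2 ≤ P := ((le_max_left _ _).trans (le_max_right _ _)).trans H.hP
  have hP3 : ((2 * J + 1) ^ 2 : ℝ) ≤ P := ((le_max_right _ _).trans (le_max_right _ _)).trans H.hP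
  have hd0 : 0 < 100 / ε := by positivity
  have hP1 : (1 : ℝ) ≤ P := by linarith
  have hPn : 1 ≤ P := by exact_mod_cast hP1
  have H' : Hyp C (3 * D + 4) S M L P Q := by
    refine ⟨hCP, H.hQ, ?_, H.hL, H.hM, ?_, ?_⟩
    · exact (mul_le_mul_of_nonneg_right (le_max_left _ _) (by positivity)).trans H.hS
    · exact H.hMD.trans (Nat.pow_le_pow_right hPn (by omega))
    · exact (mul_le_mul_of_nonneg_right (le_max_left _ _) (by positivity)).trans H.hLL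
  have hMP := H.hM
  have hM1 : (1 : ℝ) ≤ M := hP1.trans (by exact_mod_cast hMP)
  obtain ⟨K, hKe⟩ : ∃ K : ℕ, K = ⌈100 * (M : ℝ) / ε⌉₊ := ⟨_, rfl⟩
  have hK : 100 * (M : ℝ) / ε ≤ K := by rw [hKe]; exact Nat.le_ceil _
  have hK1 : 1 ≤ K := by
    have h1 : (0 : ℝ) < K := lt_of_lt_of_le (by positivity) hK
    exact_mod_cast h1
  have hKle : (K : ℝ) ≤ P ^ (D + 1) := by
    have h1 : (K : ℝ) < 100 * M / ε + 1 := by
      rw [hKe]
      exact Nat.ceil_lt_add_one (by positivity)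
    have h2 : (M : ℝ) ≤ P ^ D := by exact_mod_cast H.hMD
    calc (K : ℝ) ≤ 100 * M / ε + 1 := h1.le
      _ ≤ (100 / ε + 2) * M := by
          have : 100 * (M : ℝ) / ε = 100 / ε * M := by ring
          rw [this]
          nlinarith
      _ ≤ P * P ^ D := mul_le_mul hP2 h2 (by positivity) (by positivity)
      _ = _ := by ring
  set f : ℤ → ℤ → ℕ → ℕ → Finset ℕ := fun a b k l => (Ico Y (Y + L)).filter fun n =>
    ∃ F G : ℤ → ℂ, Bd F ∧ Bd G ∧
      ε / 2 * M * LL Q < ‖B1 Q S M n v a b ((k : ℝ) / K) ((l : ℝ) / K) F G‖ with hf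
  have hsub : (Ico Y (Y + L)).filter (fun n => Bad ε J Q S M v n) ⊆
      (Icc (-(J : ℤ)) J ×ˢ (Icc (-(J : ℤ)) J ×ˢ (range K ×ˢ range K))).biUnion
        fun q => f q.1 q.2.1 q.2.2.1 q.2.2.2 := by
    intro n hn
    obtain ⟨hn1, a, b, α, β, F, G, ha, hb, hF, hG, hbad⟩ := mem_filter.1 hn
    obtain ⟨k, hk, l, hl, hkl⟩ := rnd hN hv (fun p hp => ⟨(H.hQ p hp).1,
      (H.hQ p hp).2.2.trans hMP⟩) hK1 hK hε hF hG hbad
    rw [mem_biUnion]
    refine ⟨(a, b, k, l), ?_, mem_filter.2 ⟨hn1, F, G, hF, hG, hkl⟩⟩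
    simp only [mem_product, mem_Icc, mem_range]
    exact ⟨abs_le.1 ha, abs_le.1 hb, hk, hl⟩
  have hcard : ∀ q ∈ Icc (-(J : ℤ)) J ×ˢ (Icc (-(J : ℤ)) J ×ˢ (range K ×ˢ range K)),
      ((f q.1 q.2.1 q.2.2.1 q.2.2.2).card : ℝ) ≤ (L : ℝ) / (P : ℝ) ^ (3 * D + 4) := by
    intro q hq
    simp only [mem_product, mem_Icc, mem_range] at hq
    exact hC S M L P Y Q v q.1 q.2.1 _ _ H' hv (abs_le.2 hq.1) (abs_le.2 hq.2.1)
  calc ((((Ico Y (Y + L)).filter fun n => Bad ε J Q S M v n).card : ℕ) : ℝ) ≤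
      (((Icc (-(J : ℤ)) J ×ˢ (Icc (-(J : ℤ)) J ×ˢ (range K ×ˢ range K))).biUnion
        fun q => f q.1 q.2.1 q.2.2.1 q.2.2.2).card : ℝ) := by
        exact_mod_cast card_le_card hsub
    _ ≤ ((∑ q ∈ Icc (-(J : ℤ)) J ×ˢ (Icc (-(J : ℤ)) J ×ˢ (range K ×ˢ range K)),
        (f q.1 q.2.1 q.2.2.1 q.2.2.2).card : ℕ) : ℝ) := by
        exact_mod_cast card_biUnion_le
    _ ≤ ∑ q ∈ Icc (-(J : ℤ)) J ×ˢ (Icc (-(J : ℤ)) J ×ˢ (range K ×ˢ range K)),
        (L : ℝ) / (P : ℝ) ^ (3 * D + 4) := by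
        push_cast
        exact sum_le_sum hcard
    _ = (2 * J + 1) ^ 2 * (K : ℝ) ^ 2 * ((L : ℝ) / (P : ℝ) ^ (3 * D + 4)) := by
        rw [sum_const, card_product, card_product, card_product, card_range, Int.card_Icc,
          nsmul_eq_mul]
        have : ((J : ℤ) + 1 - -(J : ℤ)).toNat = 2 * J + 1 := by omega
        rw [this]
        push_cast
        ring
    _ ≤ P * (P ^ (D + 1)) ^ 2 * ((L : ℝ) / (P : ℝ) ^ (3 * D + 4)) := by
        gcongr
    _ = ((L : ℝ) / (P : ℝ) ^ D) * (1 / P) := by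
        have : (P : ℝ) ≠ 0 := by positivity
        field_simp
        ring
    _ ≤ ((L : ℝ) / (P : ℝ) ^ D) * 1 := by
        apply mul_le_mul_of_nonneg_left _ (by positivity)
        rw [div_le_one (by positivity)]
        exact hP1
    _ = _ := mul_one _

end Pool.Agent.H10.XCE
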